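import Pool.Agent.Y190.GN.Fin
import Pool.Agent.Y190.BV.Cng

/-!
The height inequality for curves in the varieties of the vectors whose powers are the values of a
polynomial.
-/

set_option autoImplicit false

set_option linter.unusedSectionVars false

open Polynomial FF Pool.Agent.W603.LV Pool.Agent.W603.PV Pool.Agent.W602.GT Pool.Agent.Y190.BV
  Pool.Agent.Y190.GN Pool.Agent.TH145.MW

namespace Pool.Agent.Y190.AH

variable {k : Type} [Field k] [IsAlgClosed k] [CharZero k] {L : Type} [Field L] [Algebra k L]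
  [IsFF k L] {N n m : ℕ}

theorem hbd_mono {d d' : ℕ} (h : d ≤ d') (c : ℤ) : hbd d c 0 ≤ hbd d' c 0 := by
  unfold hbd
  have h1 : (d : ℤ) ≤ d' := by exact_mod_cast h
  have h2 : (0 : ℤ) ≤ max c 0 := le_max_right _ _
  have h3 : (0 : ℤ) ≤ d := by positivity
  simp only [max_self, mul_zero, add_zero]
  gcongr

/-- the coefficient in the bound -/
def hco (n : ℕ) : ℕ := n * (n * (2 * ((n + 1) * (2 * n))))

theorem hbd_eq (n : ℕ) (c : ℤ) : hbd n c 0 = hco n * max c 0 := by
  unfold hbd hco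
  push_cast
  rw [max_self]
  ring

theorem hgt_of_pow {f : L} {m : ℕ} (hm : 1 ≤ m) {B : ℤ} (hB : 0 ≤ B) (h : hgt k (f ^ m) ≤ B) :
    hgt k f ≤ B := by
  by_cases hf : f = 0
  · rw [hf, hgt_zero]; exact hB
  rw [hgt_pow hf] at h
  have h2 : 0 ≤ hgt k f := hgt_nonneg _
  have h3 : (1 : ℤ) ≤ m := by exact_mod_cast hm
  nlinarith

/-- polynomials without multiple factors -/
theorem rat_free (hm : 2 ≤ m) (hN : 4 * n < N + 1) {a : Fin (N + 1) → k}
    (ha : Function.Injective a) {y : Fin (N + 1) → L} {H : L[X]} (hH : H ≠ 0)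
    (hd : H.natDegree ≤ n) (hfree : ∀ p : L[X], Irreducible p → ¬ p ^ m ∣ H)
    (hy : ∀ j, y j ^ m = H.eval (algebraMap k L (a j))) (i j : Fin (N + 1)) :
    hgt k (y i / y j) ≤ hco n * max (canDeg k L) 0 := by
  rw [← hbd_eq]
  refine hgt_of_pow (m := m) (by omega) (hbd_nonneg _ _ _) ?_
  rw [div_pow, hy, hy]
  exact hgt_bound_lin hm hN 0 a ha H hH hd (fun i => ⟨y i, hy i⟩) hfree _ _ (hgt_const _).le
    (hgt_const _).le

/-- polynomials with a multiple factor at a node -/
theorem rat_node (hm : 2 ≤ m) (hnm : n < 2 * m) (hmn : m ≤ n) (hN : 4 * n < N + 1)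
    {a : Fin (N + 1) → k} (ha : Function.Injective a) {y : Fin (N + 1) → L} {Q : L[X]}
    (hQ : Q ≠ 0) (hd : Q.natDegree ≤ n - m) {i0 : Fin (N + 1)}
    (hy : ∀ j, y j ^ m = (algebraMap k L (a j) - algebraMap k L (a i0)) ^ m *
      Q.eval (algebraMap k L (a j))) (i j : Fin (N + 1)) :
    hgt k (y i / y j) ≤ hco n * max (canDeg k L) 0 := by
  obtain ⟨r, rfl⟩ : ∃ r, N = r + 1 := ⟨N - 1, by omega⟩
  have h00 : (0 : ℤ) ≤ hco n * max (canDeg k L) 0 := by positivity
  have hi0 : y i0 = 0 := by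
    have h1 := hy i0
    rw [sub_self, zero_pow (by omega), zero_mul] at h1
    exact pow_eq_zero_iff (by omega) |>.1 h1
  by_cases hi : i = i0
  · rw [hi, hi0, zero_div, hgt_zero]; exact h00
  by_cases hj : j = i0
  · rw [hj, hi0, div_zero, hgt_zero]; exact h00
  have hne : ∀ l, l ≠ i0 → a l - a i0 ≠ 0 := fun l hl => sub_ne_zero.2 fun h => hl (ha h)
  have hB : hbd (n - m) (canDeg k L) 0 ≤ hco n * max (canDeg k L) 0 := by
    rw [← hbd_eq]
    exact hbd_mono (Nat.sub_le _ _) _
  refine hgt_of_pow (m := m) (by omega) h00 ?_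
  have h1 : (y i / y j) ^ m = algebraMap k L (((a i - a i0) / (a j - a i0)) ^ m) *
      (Q.eval (algebraMap k L (a i)) / Q.eval (algebraMap k L (a j))) := by
    rw [div_pow, hy, hy, map_pow, map_div₀, map_sub, map_sub, div_pow, mul_div_mul_comm]
  rw [h1]
  refine (hgt_mul_le _ _).trans ?_
  rw [hgt_const, zero_add]
  refine le_trans ?_ hB
  have hfree : ∀ p : L[X], Irreducible p → ¬ p ^ m ∣ Q := free_of_deg hQ (by omega)
  refine hgt_bound_lin (q := r + 1) hm (by omega) 0 (fun l => a (i0.succAbove l))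
    (ha.comp Fin.succAbove_right_injective) Q hQ hd (fun l => ?_) hfree _ _ (hgt_const _).le
    (hgt_const _).le
  refine ⟨y (i0.succAbove l) / algebraMap k L (a (i0.succAbove l) - a i0), ?_⟩
  have h2 := hne _ (Fin.succAbove_ne i0 l)
  have h3 : algebraMap k L (a (i0.succAbove l) - a i0) ≠ 0 := (_root_.map_ne_zero _).2 h2
  rw [div_pow, hy, ← map_sub]
  field_simp

/-- **The structure of the curves.** -/
theorem dicho (hm : 2 ≤ m) (hnm : n < 2 * m) (hN : 4 * n < N + 1)
    {a : Fin (N + 1) → k} (ha : Function.Injective a) {y : Fin (N + 1) → L} (hy0 : y ≠ 0)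
    {H : L[X]} (hd : H.natDegree ≤ n) (hy : ∀ j, y j ^ m = H.eval (algebraMap k L (a j))) :
    (∀ i j, hgt k (y i / y j) ≤ hco n * max (canDeg k L) 0) ∨
      ∃ (t : L) (z : Fin (N + 1) → L), (∀ i, y i = (algebraMap k L (a i) - t) * z i) ∧
        (∃ i j, i ≠ j ∧ z i ≠ 0 ∧ z j ≠ 0) ∧
        ∀ i j, hgt k (z i / z j) ≤ hco n * max (canDeg k L) 0 := by
  classical
  have hchL : CharZero L := charZero_of_injective_algebraMap (algebraMap k L).injective
  have hH : H ≠ 0 := by
    rintro rfl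
    apply hy0
    funext j
    have h1 := hy j
    rw [eval_zero] at h1
    exact pow_eq_zero_iff (by omega) |>.1 h1
  by_cases hfree : ∀ p : L[X], Irreducible p → ¬ p ^ m ∣ H
  · exact Or.inl (rat_free hm hN ha hH hd hfree hy)
  obtain ⟨hmn, t, Q, hQ0, hQd, hHQ⟩ := exists_root_pow hnm hH hd hfree
  have hyQ : ∀ j, y j ^ m = (algebraMap k L (a j) - t) ^ m * Q.eval (algebraMap k L (a j)) := by
    intro j
    rw [hy j, hHQ, eval_mul, eval_pow, eval_sub, eval_X, eval_C]
  by_cases hnode : ∃ i0, t = algebraMap k L (a i0)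
  · obtain ⟨i0, rfl⟩ := hnode
    exact Or.inl (rat_node hm hnm hmn hN ha hQ0 hQd hyQ)
  push Not at hnode
  have hne : ∀ i, algebraMap k L (a i) - t ≠ 0 := fun i => sub_ne_zero.2 (Ne.symm (hnode i))
  have hzQ : ∀ i, (y i / (algebraMap k L (a i) - t)) ^ m = Q.eval (algebraMap k L (a i)) := by
    intro i
    rw [div_pow, hyQ]
    have := pow_ne_zero m (hne i)
    field_simp
  refine Or.inr ⟨t, fun i => y i / (algebraMap k L (a i) - t), fun i => ?_, ?_, ?_⟩
  · have := hne i
    simp only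
    field_simp
  · have hinj : Function.Injective fun i => algebraMap k L (a i) :=
      (algebraMap k L).injective.comp ha
    obtain ⟨i0, hi0⟩ := Function.ne_iff.1 hy0
    have hi0' : y i0 ≠ 0 := hi0
    refine ⟨i0, ?_⟩
    by_contra hcon
    push Not at hcon
    apply hQ0
    refine Polynomial.eq_zero_of_natDegree_lt_card_of_eval_eq_zero' _
      ((Finset.univ.erase i0).image fun i => algebraMap k L (a i)) ?_ ?_
    · intro x hx
      obtain ⟨i, hi, rfl⟩ := Finset.mem_image.1 hx
      rw [← hzQ, hcon i (Finset.ne_of_mem_erase hi).symm (div_ne_zero hi0' (hne i0)),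
        zero_pow (by omega)]
    · rw [Finset.card_image_of_injective _ hinj, Finset.card_erase_of_mem (Finset.mem_univ _),
        Finset.card_univ, Fintype.card_fin]
      omega
  · intro i j
    exact rat_free (y := fun i => y i / (algebraMap k L (a i) - t)) hm hN ha hQ0
      (hQd.trans (Nat.sub_le _ _)) (free_of_deg hQ0 (by omega)) hzQ i j

end Pool.Agent.Y190.AH
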