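import Pool.Agent.Y190.AH.Ht

/-!
The degrees of the curves which are not in the union of the lines.
-/

set_option autoImplicit false

set_option linter.unusedSectionVars false

open FF Pool.Agent.W603.LV Pool.Agent.W603.PV Pool.Agent.W602.GT Pool.Agent.Y190.BV
  Pool.Agent.Y190.GN Pool.Agent.TH145.MW

namespace Pool.Agent.Y190.AH

section

variable {k : Type} [Field k] {N : ℕ} {ι : Type}

/-- finitely many equations -/
theorem exists_finset_span (F : ι → MvPolynomial (Fin (N + 1)) k) :
    ∃ s : Finset ι, ∀ e, F e ∈ Ideal.span (F '' (s : Set ι)) := by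
  classical
  have h1 : (Ideal.span (Set.range F)).FG := (isNoetherianRing_iff_ideal_fg _).1 inferInstance _
  obtain ⟨t, ht, hspan⟩ := (Submodule.fg_span_iff_fg_span_finset_subset (R := MvPolynomial
    (Fin (N + 1)) k) (Set.range F)).1 h1
  choose g hg using fun x : t => ht x.2
  refine ⟨t.attach.image g, fun e => ?_⟩
  have h2 : F e ∈ Submodule.span (MvPolynomial (Fin (N + 1)) k) (t : Set _) := by
    rw [← hspan]
    exact Ideal.subset_span ⟨e, rfl⟩
  refine Submodule.span_mono ?_ h2
  intro x hx
  refine ⟨g ⟨x, hx⟩, ?_, hg ⟨x, hx⟩⟩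
  rw [Finset.mem_coe, Finset.mem_image]
  exact ⟨⟨x, hx⟩, Finset.mem_attach _ _, rfl⟩

theorem vanish_of_finset {F : ι → MvPolynomial (Fin (N + 1)) k} {s : Finset ι}
    (hs : ∀ e, F e ∈ Ideal.span (F '' (s : Set ι))) {R : Type} [CommRing R] [Algebra k R]
    {x : Fin (N + 1) → R} (hx : ∀ e ∈ s, MvPolynomial.aeval x (F e) = 0) (e : ι) :
    MvPolynomial.aeval x (F e) = 0 := by
  have h1 : Ideal.span (F '' (s : Set ι)) ≤ RingHom.ker (MvPolynomial.aeval x :
      MvPolynomial (Fin (N + 1)) k →ₐ[k] R) := by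
    rw [Ideal.span_le]
    rintro _ ⟨e', he', rfl⟩
    exact hx e' he'
  exact h1 (hs e)

/-- the polynomial with coefficients in the polynomial ring -/
noncomputable def gp (a : Fin (N + 1) → k) (G : MvPolynomial (Fin (N + 1)) k) :
    Polynomial (MvPolynomial (Fin (N + 1)) k) :=
  MvPolynomial.aeval (fun i => (Polynomial.C (MvPolynomial.C (a i)) - Polynomial.X) *
    Polynomial.C (MvPolynomial.X i)) G

/-- the polynomial with coefficients in a field -/
noncomputable def gz (a : Fin (N + 1) → k) {L : Type} [Field L] [Algebra k L]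
    (z : Fin (N + 1) → L) (G : MvPolynomial (Fin (N + 1)) k) : Polynomial L :=
  MvPolynomial.aeval (fun i => (Polynomial.C (algebraMap k L (a i)) - Polynomial.X) *
    Polynomial.C (z i)) G

theorem gp_map (a : Fin (N + 1) → k) {L : Type} [Field L] [Algebra k L] (z : Fin (N + 1) → L)
    (G : MvPolynomial (Fin (N + 1)) k) :
    (gp a G).map (MvPolynomial.aeval z : MvPolynomial (Fin (N + 1)) k →ₐ[k] L).toRingHom =
      gz a z G := by
  unfold gp gz
  have h1 : ((Polynomial.mapRingHom (MvPolynomial.aeval z : MvPolynomial (Fin (N + 1)) k →ₐ[k]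
      L).toRingHom).comp (MvPolynomial.aeval (fun i => (Polynomial.C (MvPolynomial.C (a i)) -
        Polynomial.X) * Polynomial.C (MvPolynomial.X i)) : MvPolynomial (Fin (N + 1)) k →ₐ[k]
          Polynomial (MvPolynomial (Fin (N + 1)) k)).toRingHom) =
      (MvPolynomial.aeval (fun i => (Polynomial.C (algebraMap k L (a i)) - Polynomial.X) *
        Polynomial.C (z i)) : MvPolynomial (Fin (N + 1)) k →ₐ[k] Polynomial L).toRingHom := by
    apply MvPolynomial.ringHom_ext
    · intro c
      simp [Polynomial.algebraMap_apply]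
    · intro i
      simp
  exact congrArg (fun f : MvPolynomial (Fin (N + 1)) k →+* Polynomial L => f G) h1

theorem gz_eval (a : Fin (N + 1) → k) {L : Type} [Field L] [Algebra k L] (z : Fin (N + 1) → L)
    (G : MvPolynomial (Fin (N + 1)) k) (t : L) :
    (gz a z G).eval t = val (fun i => (algebraMap k L (a i) - t) * z i) G := by
  unfold gz val
  have h1 : ((Polynomial.aeval t : Polynomial L →ₐ[L] L).restrictScalars k).comp
      (MvPolynomial.aeval (fun i => (Polynomial.C (algebraMap k L (a i)) - Polynomial.X) *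
        Polynomial.C (z i))) = MvPolynomial.aeval fun i => (algebraMap k L (a i) - t) * z i := by
    apply MvPolynomial.algHom_ext
    intro i
    simp
  rw [← h1, ← Polynomial.coe_aeval_eq_eval]
  rfl

/-- the constant -/
noncomputable def bnd (a : Fin (N + 1) → k) (G : MvPolynomial (Fin (N + 1)) k) : ℕ :=
  ∑ d ∈ Finset.range ((gp a G).natDegree + 1), ((gp a G).coeff d).totalDegree * (N + 1)

end

section

variable {k : Type} [Field k] [IsAlgClosed k] [CharZero k] {L : Type} [Field L] [Algebra k L]
  [IsFF k L] {N n m : ℕ}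

theorem root_le {p : Polynomial L} (hp : p ≠ 0) {t : L} (ht : p.eval t = 0) {D : ℕ}
    (hD : p.natDegree ≤ D) : hgt k t ≤ ∑ d ∈ Finset.range (D + 1), hgt k (p.coeff d) := by
  have h1 := hgt_root (k := k) (D := p.natDegree) p.coeff (by
    rw [Polynomial.coeff_natDegree, Ne, Polynomial.leadingCoeff_eq_zero]; exact hp) t (by
    rw [← Polynomial.eval_eq_sum_range]; exact ht)
  rw [add_comm, ← Finset.sum_range_succ] at h1
  refine h1.trans (Finset.sum_le_sum_of_subset_of_nonneg ?_ fun _ _ _ => hgt_nonneg _)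
  exact Finset.range_subset_range.2 (by omega)

theorem root_bound (a : Fin (N + 1) → k) (G : MvPolynomial (Fin (N + 1)) k)
    {z : Fin (N + 1) → L} {B : ℤ} (hB : ∀ i, hgt k (z i) ≤ B) (hG : gz a z G ≠ 0) {t : L}
    (ht : val (fun i => (algebraMap k L (a i) - t) * z i) G = 0) : hgt k t ≤ bnd a G * B := by
  rw [← gz_eval] at ht
  have hD : (gz a z G).natDegree ≤ (gp a G).natDegree := by
    rw [← gp_map]
    exact Polynomial.natDegree_map_le
  refine (root_le hG ht hD).trans ?_
  unfold bnd
  push_cast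
  rw [Finset.sum_mul]
  refine Finset.sum_le_sum fun d _ => ?_
  rw [← gp_map, Polynomial.coeff_map]
  change hgt k (MvPolynomial.aeval z ((gp a G).coeff d)) ≤ _
  refine (hgt_mvpoly z _).trans ?_
  rw [mul_assoc]
  refine mul_le_mul_of_nonneg_left ?_ (by positivity)
  refine (Finset.sum_le_sum fun i _ => hB i).trans ?_
  rw [Finset.sum_const, Finset.card_univ, Fintype.card_fin, nsmul_eq_mul]
  push_cast
  exact le_rfl

/-- lines over extensions -/
theorem line_on {ι : Type} {F : ι → MvPolynomial (Fin (N + 1)) k} (hF : ∀ e, IsForm (F e))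
    {a : Fin (N + 1) → k} (ha : Function.Injective a) {z : Fin (N + 1) → L}
    (hz : ∃ i j, i ≠ j ∧ z i ≠ 0 ∧ z j ≠ 0) (h0 : ∀ e, gz a z (F e) = 0) (t : L) :
    (∃ i j, (algebraMap k L (a i) - t) * z i * z j - (algebraMap k L (a j) - t) * z j * z i ≠ 0) ∧
    ∀ (c c' : L) (e : ι), val (fun l => c * ((algebraMap k L (a l) - t) * z l) + c' * z l)
      (F e) = 0 := by
  have hchL : CharZero L := charZero_of_injective_algebraMap (algebraMap k L).injective
  have hinf : Infinite L := inferInstance
  obtain ⟨i, j, hij, hi, hj⟩ := hz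
  have hmap : ∀ (x : Fin (N + 1) → L) (e : ι),
      val x (MvPolynomial.map (algebraMap k L) (F e)) = val x (F e) := by
    intro x e
    unfold val
    exact MvPolynomial.aeval_map_algebraMap L x (F e)
  have hline : Line (fun e => MvPolynomial.map (algebraMap k L) (F e))
      (fun i => algebraMap k L (a i) * z i) z := by
    refine line_of_infinite (K := L) (A := Set.univ) (fun e => ?_)
      ((algebraMap k L).injective.comp ha) hij hi hj Set.infinite_univ ?_
    · obtain ⟨d, hd⟩ := hF e
      exact ⟨d, hd.map _⟩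
    · intro s _ e
      rw [hmap]
      have h1 := congrArg (Polynomial.eval s) (h0 e)
      rw [gz_eval, Polynomial.eval_zero] at h1
      exact h1
  refine ⟨⟨i, j, ?_⟩, fun c c' e => ?_⟩
  · have e1 : (algebraMap k L (a i) - t) * z i * z j - (algebraMap k L (a j) - t) * z j * z i =
        algebraMap k L (a i - a j) * (z i * z j) := by
      rw [map_sub]; ring
    rw [e1]
    exact mul_ne_zero ((_root_.map_ne_zero _).2 (sub_ne_zero.2 fun h => hij (ha h)))
      (mul_ne_zero hi hj)
  · have h1 := hline.2 c (c' - c * t) e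
    rw [hmap] at h1
    rw [← h1]
    congr 1
    funext l
    simp only [Pi.add_apply, Pi.smul_apply, smul_eq_mul]
    ring

theorem gz_smul {a : Fin (N + 1) → k} {G : MvPolynomial (Fin (N + 1)) k} (hG : IsForm G)
    {z : Fin (N + 1) → L} {c : L} (h : gz a (fun i => c * z i) G = 0) (hc : c ≠ 0) :
    gz a z G = 0 := by
  obtain ⟨d, hd⟩ := hG
  have hchL : CharZero L := charZero_of_injective_algebraMap (algebraMap k L).injective
  have hinf : Infinite L := inferInstance
  apply Polynomial.eq_zero_of_infinite_isRoot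
  refine Set.Infinite.mono ?_ Set.infinite_univ
  intro s _
  change (gz a z G).eval s = 0
  have h1 := congrArg (Polynomial.eval s) h
  rw [gz_eval, Polynomial.eval_zero] at h1
  have h2 : (fun i => (algebraMap k L (a i) - s) * (c * z i)) =
      fun i => c * ((algebraMap k L (a i) - s) * z i) := by
    funext i
    ring
  rw [h2, val_smul hd] at h1
  rw [gz_eval]
  exact (mul_eq_zero.1 h1).resolve_left (pow_ne_zero _ hc)

end

/-- **The degrees of the curves which are not on lines.** -/
theorem proj_bound' {k : Type} [Field k] [IsAlgClosed k] [CharZero k] {N n m : ℕ} (hm : 2 ≤ m)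
    (hnm : n < 2 * m) (hN : 4 * n < N + 1) {a : Fin (N + 1) → k} (ha : Function.Injective a)
    {ι : Type} {F : ι → MvPolynomial (Fin (N + 1)) k} (hF : ∀ e, IsForm (F e)) :
    ∃ A : ℕ, ∀ (L : Type) [Field L] [Algebra k L] [IsFF k L] (y : Fin (N + 1) → L), y ≠ 0 →
      (∀ l : Rel a n, val y (buchi a n m l) = 0) → (∀ e, val y (F e) = 0) →
        pht k y ≤ A * max (canDeg k L) 0 ∨
        ∃ v : Fin (N + 1) → L, (∃ i j, y i * v j - y j * v i ≠ 0) ∧
          ∀ (c c' : L) (e : ι), val (fun l => c * y l + c' * v l) (F e) = 0 := by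
  classical
  have hn : n ≤ N := by omega
  obtain ⟨s, hs⟩ := exists_finset_span F
  obtain ⟨A1, hA1⟩ : ∃ A1 : ℕ, A1 = ∑ e ∈ s, bnd a (F e) := ⟨_, rfl⟩
  refine ⟨(N + 1) * (2 * (A1 * hco n) + hco n), fun L _ _ _ y hy0 hyb hy => ?_⟩
  have hchL : CharZero L := charZero_of_injective_algebraMap (algebraMap k L).injective
  obtain ⟨l, hl⟩ := Function.ne_iff.1 hy0
  have hl' : y l ≠ 0 := hl
  have hM0 : (0 : ℤ) ≤ max (canDeg k L) 0 := le_max_right _ _
  have hfin : (∀ i j, hgt k (y i / y j) ≤ (2 * (A1 * hco n) + hco n : ℕ) * max (canDeg k L) 0) →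
      pht k y ≤ ((N + 1) * (2 * (A1 * hco n) + hco n) : ℕ) * max (canDeg k L) 0 := by
    intro h
    refine (pht_le (k := k) y hl').trans ((Finset.sum_le_sum fun j _ => h j l).trans ?_)
    rw [Finset.sum_const, Finset.card_univ, Fintype.card_fin, nsmul_eq_mul]
    push_cast
    exact le_of_eq (by ring)
  rcases dicho (m := m) hm hnm hN ha hy0 (intp_natDegree ha hn _)
    (fun j => (intp_eval ha hn m hyb j).symm) with h | ⟨t, z, hyz, hz, hB⟩
  · refine Or.inl (hfin fun i j => (h i j).trans ?_)
    refine mul_le_mul_of_nonneg_right ?_ hM0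
    exact_mod_cast Nat.le_add_left _ _
  · by_cases h0 : ∀ e ∈ s, gz a z (F e) = 0
    · refine Or.inr ⟨z, ?_⟩
      have h1 : ∀ e, gz a z (F e) = 0 := fun e => vanish_of_finset hs h0 e
      obtain ⟨h2, h3⟩ := line_on hF ha hz h1 t
      rw [show y = fun i => (algebraMap k L (a i) - t) * z i from funext hyz]
      exact ⟨h2, h3⟩
    · push Not at h0
      obtain ⟨e, hes, he⟩ := h0
      obtain ⟨i0, j0, -, hi0, -⟩ := hz
      have hz' : gz a (fun i => (z i0)⁻¹ * z i) (F e) ≠ 0 := fun h1 =>
        he (gz_smul (hF e) h1 (inv_ne_zero hi0))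
      have hval : val (fun i => (algebraMap k L (a i) - t) * ((z i0)⁻¹ * z i)) (F e) = 0 := by
        obtain ⟨d, hd⟩ := hF e
        have h2 : (fun i => (algebraMap k L (a i) - t) * ((z i0)⁻¹ * z i)) =
            fun i => (z i0)⁻¹ * y i := by
          funext i
          rw [hyz i]
          ring
        rw [h2, val_smul hd, hy e, mul_zero]
      have ht := root_bound a (F e) (B := hco n * max (canDeg k L) 0) (fun i => by
        rw [mul_comm, ← div_eq_mul_inv]
        exact hB i i0) hz' hval
      have hbA : bnd a (F e) ≤ A1 := by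
        rw [hA1]
        exact Finset.single_le_sum (f := fun e => bnd a (F e)) (fun _ _ => Nat.zero_le _) hes
      have ht' : hgt k t ≤ (A1 * hco n : ℕ) * max (canDeg k L) 0 := by
        refine ht.trans ?_
        push_cast
        rw [mul_assoc]
        refine mul_le_mul_of_nonneg_right (by exact_mod_cast hbA) (by positivity)
      refine Or.inl (hfin fun i j => ?_)
      have hsubt : ∀ i, hgt k (algebraMap k L (a i) - t) ≤ hgt k t := by
        intro i
        rw [sub_eq_add_neg]
        refine (hgt_add_le _ _).trans ?_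
        rw [hgt_const, zero_add, hgt_neg]
      have h3 : y i / y j = ((algebraMap k L (a i) - t) * (algebraMap k L (a j) - t)⁻¹) *
          (z i / z j) := by
        rw [hyz i, hyz j, ← div_eq_mul_inv, mul_div_mul_comm]
      rw [h3]
      refine (hgt_mul_le _ _).trans ?_
      have h4 := hgt_mul_le (k := k) (algebraMap k L (a i) - t) (algebraMap k L (a j) - t)⁻¹
      rw [hgt_inv] at h4
      have h5 := hsubt i
      have h6 := hsubt j
      have h7 := hB i j
      push_cast at ht' ⊢
      linarith

theorem proj_bound {k : Type} [Field k] [IsAlgClosed k] [CharZero k] {N n m : ℕ} (hm : 2 ≤ m)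
    (hnm : n < 2 * m) (hN : 4 * n < N + 1) {a : Fin (N + 1) → k} (ha : Function.Injective a)
    {ι : Type} {F : ι → MvPolynomial (Fin (N + 1)) k} (hF : ∀ e, IsForm (F e))
    (hsub : Cone F ⊆ PowVal a n m) :
    ∃ A : ℕ, ∀ (L : Type) [Field L] [Algebra k L] [IsFF k L] (y : Fin (N + 1) → L), y ≠ 0 →
      (∀ e, val y (F e) = 0) → pht k y ≤ A * max (canDeg k L) 0 ∨
        ∀ G : MvPolynomial (Fin (N + 1)) k,
          (∀ p q, Line F p q → ∀ c c' : k, val (c • p + c' • q) G = 0) → val y G = 0 := by
  have hn : n ≤ N := by omega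
  have hsub' : Cone F ⊆ Cone (buchi a n m) := by rw [cone_buchi ha hn]; exact hsub
  obtain ⟨A, hA⟩ := proj_bound' (m := m) hm hnm hN ha hF
  refine ⟨A, fun L _ _ _ y hy0 hy => ?_⟩
  have hchL : CharZero L := charZero_of_injective_algebraMap (algebraMap k L).injective
  rcases hA L y hy0 (sub_ext hsub' hy0 hy) hy with h | ⟨v, h1, h2⟩
  · exact Or.inl h
  · exact Or.inr fun G hG => mem_closure y v h1 h2 hG

end Pool.Agent.Y190.AH
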