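import Pool.Agent.Y190.AH.Lin

/-!
The degrees of the curves in the complements of three coordinate hyperplanes.
-/

set_option autoImplicit false

set_option linter.unusedSectionVars false

open FF Pool.Agent.W603.LV Pool.Agent.W603.PV Pool.Agent.W602.GT Pool.Agent.Y190.BV
  Pool.Agent.Y190.GN Pool.Agent.TH145.MW Pool.Agent.Y216

namespace Pool.Agent.Y190.AH

variable {k : Type} [Field k] [IsAlgClosed k] [CharZero k] {L : Type} [Field L] [Algebra k L]
  [IsFF k L] {N n m : ℕ}

theorem not_alg_lin {t : L} (ht : Transcendental k t) {c d : k}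
    (h : algebraMap k L c + algebraMap k L d * t = 0) : c = 0 ∧ d = 0 := by
  have hd : d = 0 := by
    by_contra hd
    apply ht
    have hd' : algebraMap k L d ≠ 0 := (_root_.map_ne_zero _).2 hd
    have h1 : t = algebraMap k L (-c / d) := by
      rw [map_div₀, map_neg]
      field_simp
      linear_combination h
    rw [h1]
    exact isAlgebraic_algebraMap _
  refine ⟨?_, hd⟩
  rw [hd, map_zero, zero_mul, add_zero] at h
  exact (_root_.map_eq_zero _).1 h

theorem ord_sub_const (P : Place k L) {t : L} {b b' : k} (hb : b ≠ b')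
    (ht : t - algebraMap k L b ≠ 0) (h : 0 < P.ord (t - algebraMap k L b)) :
    P.ord (t - algebraMap k L b') = 0 := by
  have h1 : algebraMap k L (b - b') ≠ 0 := (_root_.map_ne_zero _).2 (sub_ne_zero.2 hb)
  have h2 : P.ord (algebraMap k L (b - b')) = 0 := P.ord_const (sub_ne_zero.2 hb)
  have h3 : t - algebraMap k L b' = algebraMap k L (b - b') + (t - algebraMap k L b) := by
    rw [map_sub]; ring
  rw [h3]
  rw [(P.ord_add_eq h1 ht (by rw [h2]; exact h)).2, h2]

/-- a map to the projective line which meets three points in few points -/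
theorem three_pts {t : L} {b : Fin 3 → k} (hb : Function.Injective b) (S : Finset (Place k L))
    (hS : ∀ P ∉ S, ∀ i, P.ord (t - algebraMap k L (b i)) ≤ 0) :
    hgt k t ≤ 8 * max (canDeg k L + S.card) 0 := by
  classical
  by_cases ht : IsAlgebraic k t
  · rw [hgt_algebraic ht]
    positivity
  have ht' : Transcendental k t := ht
  have hne : ∀ c : k, t - algebraMap k L c ≠ 0 := by
    intro c h
    apply ht
    rw [sub_eq_zero.1 h]
    exact isAlgebraic_algebraMap _
  have h01 : b 0 ≠ b 1 := fun h => by simpa using hb h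
  have h02 : b 0 ≠ b 2 := fun h => by simpa using hb h
  have h12 : b 1 ≠ b 2 := fun h => by simpa using hb h
  let c : Fin 3 → k := ![b 1 - b 2, b 2 - b 0, b 0 - b 1]
  have hc : ∀ i, c i ≠ 0 := by
    intro i
    fin_cases i
    · exact sub_ne_zero.2 h12
    · exact sub_ne_zero.2 h02.symm
    · exact sub_ne_zero.2 h01
  let f : Fin 3 → L := fun i => algebraMap k L (c i) * (t - algebraMap k L (b i))
  have hc' : ∀ i, algebraMap k L (c i) ≠ 0 := fun i => (_root_.map_ne_zero _).2 (hc i)
  have hf0 : ∀ i, f i ≠ 0 := fun i => mul_ne_zero (hc' i) (hne _)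
  have hford : ∀ (P : Place k L) i, P.ord (f i) = P.ord (t - algebraMap k L (b i)) := by
    intro P i
    simp only [f]
    rw [P.ord_mul (hc' i) (hne _), P.ord_const (hc i), zero_add]
  have hsum : ∑ i, f i = 0 := by
    rw [Fin.sum_univ_three]
    simp only [f, c, Matrix.cons_val_zero, Matrix.cons_val_one, Matrix.cons_val_two,
      Matrix.tail_cons, Matrix.head_cons, map_sub]
    ring
  have hlin : LinearIndependent k (fun l => f ((Fin.last 2).succAbove l)) := by
    have h1 : (fun l => f ((Fin.last 2).succAbove l)) = ![f 0, f 1] := by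
      funext l
      fin_cases l <;> rfl
    rw [h1, LinearIndependent.pair_iff]
    intro u v huv
    rw [Algebra.smul_def, Algebra.smul_def] at huv
    have h2 : algebraMap k L (-(u * c 0 * b 0 + v * c 1 * b 1)) +
        algebraMap k L (u * c 0 + v * c 1) * t = 0 := by
      simp only [f] at huv
      simp only [map_neg, map_add, map_mul]
      linear_combination huv
    obtain ⟨h3, h4⟩ := not_alg_lin ht' h2
    have h5 : v * (c 1 * (b 1 - b 0)) = 0 := by linear_combination -h3 - b 0 * h4
    have h6 : v = 0 := (mul_eq_zero.1 h5).resolve_right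
      (mul_ne_zero (hc 1) (sub_ne_zero.2 h01.symm))
    rw [h6, zero_mul, add_zero] at h4
    exact ⟨(mul_eq_zero.1 h4).resolve_right (hc 0), h6⟩
  have hle : ∀ P ∉ S, ∀ i j, P.ord (f i) ≤ P.ord (f j) := by
    intro P hP i j
    by_contra hcon
    push Not at hcon
    rw [hford, hford] at hcon
    have h1 := hS P hP i
    have h2 : Ge P (P.ord (t - algebraMap k L (b i))) (t - algebraMap k L (b i)) :=
      Or.inr le_rfl
    have h3 : Ge P (P.ord (t - algebraMap k L (b i))) (algebraMap k L (b i - b j)) := by
      by_cases h : b i - b j = 0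
      · left
        rw [h, map_zero]
      · right
        rw [P.ord_const h]
        exact h1
    have h4 := h2.add h3
    have h5 : t - algebraMap k L (b i) + algebraMap k L (b i - b j) =
        t - algebraMap k L (b j) := by
      rw [map_sub]; ring
    rw [h5] at h4
    have h6 := h4.resolve_left (hne _)
    omega
  have h1 := height_ineq S (m := 2) (N := 4) (by norm_num) (by norm_num) f hf0 hsum hlin
    (fun P hP i j => by
      have e1 := hle P hP i j
      have e2 := hle P hP j i
      have e3 : P.ord (f i) - P.ord (f j) = 0 := by omega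
      rw [e3]
      exact dvd_zero _) 0 1
  have htri : tri 2 = 1 := by
    unfold tri
    rw [Fin.sum_univ_two]
    rfl
  rw [htri] at h1
  obtain ⟨u, hu⟩ : ∃ u : L, u = f 0 / f 1 := ⟨_, rfl⟩
  rw [← hu] at h1
  have hu2 : u * f 1 = f 0 := by
    rw [hu, div_mul_cancel₀ _ (hf0 1)]
  have haff : ∀ c d : k, hgt k (u * algebraMap k L c + algebraMap k L d) ≤ hgt k u := by
    intro c d
    refine (hgt_add_le _ _).trans ?_
    rw [hgt_const, add_zero]
    refine (hgt_mul_le _ _).trans ?_
    rw [hgt_const, add_zero]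
  have hD : t * (u * algebraMap k L (c 1) + algebraMap k L (-(c 0))) =
      u * algebraMap k L (c 1 * b 1) + algebraMap k L (-(c 0 * b 0)) := by
    simp only [f] at hu2
    simp only [map_neg, map_mul]
    linear_combination hu2
  have hD0 : u * algebraMap k L (c 1) + algebraMap k L (-(c 0)) ≠ 0 := by
    intro h0
    rw [h0, mul_zero] at hD
    have h2 : algebraMap k L (c 0 * (b 1 - b 0)) = 0 := by
      simp only [map_neg, map_mul, map_sub] at h0 hD ⊢
      linear_combination -hD - algebraMap k L (b 1) * h0
    rw [_root_.map_eq_zero] at h2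
    exact mul_ne_zero (hc 0) (sub_ne_zero.2 h01.symm) h2
  have ht2 : t = (u * algebraMap k L (c 1 * b 1) + algebraMap k L (-(c 0 * b 0))) *
      (u * algebraMap k L (c 1) + algebraMap k L (-(c 0)))⁻¹ := by
    rw [← hD, mul_inv_cancel_right₀ hD0]
  have h3 : hgt k t ≤ 2 * hgt k u := by
    rw [ht2]
    refine (hgt_mul_le _ _).trans ?_
    rw [hgt_inv]
    have := haff (c 1 * b 1) (-(c 0 * b 0))
    have := haff (c 1) (-(c 0))
    linarith
  have h4 : canDeg k L + S.card ≤ max (canDeg k L + S.card) 0 := le_max_left _ _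
  push_cast at h1
  linarith

/-- the places where a coordinate vanishes -/
theorem meets_card {z : Fin (N + 1) → L} {j : Fin (N + 1)} (hj : z j ≠ 0) :
    ∃ M : Finset (Place k L), (∀ P, pord P z < P.ord (z j) → P ∈ M) ∧ (M.card : ℤ) ≤ pht k z := by
  classical
  obtain ⟨T, hT⟩ := exists_supp (k := k) Finset.univ z
  have hz0 : ∃ j, z j ≠ 0 := ⟨j, hj⟩
  have hTp : ∀ P : Place k L, pord P z ≠ 0 → P ∈ T := by
    intro P hP
    obtain ⟨l, _, hl⟩ := exists_pord P hz0
    rw [← hl] at hP
    exact hT l (Finset.mem_univ _) P hP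
  refine ⟨T.filter fun P => pord P z < P.ord (z j), fun P hP => ?_, ?_⟩
  · refine Finset.mem_filter.2 ⟨?_, hP⟩
    by_contra hcon
    have h1 : P.ord (z j) = 0 := by
      by_contra h
      exact hcon (hT j (Finset.mem_univ _) P h)
    have h2 : pord P z = 0 := by
      by_contra h
      exact hcon (hTp P h)
    omega
  · have hs4 : pht k z = - ∑ P ∈ T, pord P z := by
      unfold pht
      rw [finsum_eq_sum_of_support_subset (s := T)]
      intro P hP
      exact Finset.mem_coe.2 (hTp P hP)
    have h1 := sum_ord_finset (k := k) (z j) T fun P hP => hT j (Finset.mem_univ _) P hP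
    have h2 : pht k z = ∑ P ∈ T, (P.ord (z j) - pord P z) := by
      rw [hs4, Finset.sum_sub_distrib, h1]
      ring
    rw [h2, Finset.card_filter]
    push_cast
    refine Finset.sum_le_sum fun P _ => ?_
    have h3 := pord_le P hj
    split_ifs with h
    · omega
    · omega

/-- **The degrees of the curves in the complement of three coordinate hyperplanes.** -/
theorem log_bound (hm : 2 ≤ m) (hnm : n < 2 * m) (hN : 4 * n < N + 1) {a : Fin (N + 1) → k}
    (ha : Function.Injective a) {y : Fin (N + 1) → L} (hyb : ∀ l : Rel a n, val y (buchi a n m l) = 0)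
    {j : Fin 3 → Fin (N + 1)} (hj : Function.Injective j) (S : Finset (Place k L))
    (hy : ∀ i, y (j i) ≠ 0 ∧ ∀ P ∉ S, P.ord (y (j i)) = pord P y) :
    pht k y ≤ ((N + 1) * (2 * (8 * (1 + 3 * ((N + 1) * hco n))) + hco n) : ℕ) *
      max (canDeg k L + S.card) 0 := by
  classical
  have hn : n ≤ N := by omega
  have hy0 : y ≠ 0 := fun h => (hy 0).1 (congrFun h _)
  obtain ⟨l, hl⟩ := Function.ne_iff.1 hy0
  have hl' : y l ≠ 0 := hl
  have hM0 : (0 : ℤ) ≤ max (canDeg k L) 0 := le_max_right _ _
  have hMS : max (canDeg k L) 0 ≤ max (canDeg k L + S.card) 0 :=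
    max_le_max (by linarith [Nat.cast_nonneg (α := ℤ) S.card]) le_rfl
  obtain ⟨χ, hχ⟩ : ∃ χ, χ = max (canDeg k L + S.card) 0 := ⟨_, rfl⟩
  rw [← hχ] at hMS ⊢
  have hχ0 : 0 ≤ χ := hM0.trans hMS
  have hfin : (∀ i j, hgt k (y i / y j) ≤
      (2 * (8 * (1 + 3 * ((N + 1) * hco n))) + hco n : ℕ) * χ) →
      pht k y ≤ ((N + 1) * (2 * (8 * (1 + 3 * ((N + 1) * hco n))) + hco n) : ℕ) * χ := by
    intro h
    refine (pht_le (k := k) y hl').trans ((Finset.sum_le_sum fun j _ => h j l).trans ?_)
    rw [Finset.sum_const, Finset.card_univ, Fintype.card_fin, nsmul_eq_mul]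
    push_cast
    exact le_of_eq (by ring)
  rcases dicho (m := m) hm hnm hN ha hy0 (intp_natDegree ha hn _)
    (fun j => (intp_eval ha hn m hyb j).symm) with h | ⟨t, z, hyz, hz, hB⟩
  · refine hfin fun i j => (h i j).trans ?_
    refine (mul_le_mul_of_nonneg_left hMS (by positivity)).trans ?_
    refine mul_le_mul_of_nonneg_right ?_ hχ0
    exact_mod_cast Nat.le_add_left _ _
  · have hzj : ∀ i, z (j i) ≠ 0 ∧ algebraMap k L (a (j i)) - t ≠ 0 := by
      intro i
      have h1 := (hy i).1
      rw [hyz] at h1
      exact ⟨right_ne_zero_of_mul h1, left_ne_zero_of_mul h1⟩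
    have hphz : pht k z ≤ ((N + 1) * hco n : ℕ) * χ := by
      refine (pht_le (k := k) z (hzj 0).1).trans ((Finset.sum_le_sum fun i _ =>
        hB i (j 0)).trans ?_)
      rw [Finset.sum_const, Finset.card_univ, Fintype.card_fin, nsmul_eq_mul]
      push_cast
      have h1 : (hco n : ℤ) * max (canDeg k L) 0 ≤ hco n * χ :=
        mul_le_mul_of_nonneg_left hMS (by positivity)
      have h2 : (0 : ℤ) ≤ (N : ℤ) + 1 := by positivity
      nlinarith
    choose M hM1 hM2 using fun i => meets_card (k := k) (hzj i).1
    have hgt_t : hgt k t ≤ 8 * max (canDeg k L + (S ∪ Finset.univ.biUnion M).card) 0 := by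
      refine three_pts (b := fun i => a (j i)) (ha.comp hj) _ ?_
      intro P hP i
      rw [Finset.mem_union, not_or] at hP
      by_contra hcon
      push Not at hcon
      have hPM : ∀ i, P.ord (z (j i)) = pord P z := by
        intro i
        have h1 := pord_le P (hzj i).1
        by_contra hne
        apply hP.2
        exact Finset.mem_biUnion.2 ⟨i, Finset.mem_univ _, hM1 i P (by omega)⟩
      have hsw : ∀ i, P.ord (algebraMap k L (a (j i)) - t) =
          P.ord (t - algebraMap k L (a (j i))) := by
        intro i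
        rw [← P.ord_neg, neg_sub]
      have hyi : ∀ i, P.ord (y (j i)) = P.ord (t - algebraMap k L (a (j i))) + pord P z := by
        intro i
        rw [hyz, P.ord_mul (hzj i).2 (hzj i).1, hPM, hsw]
      obtain ⟨i', hi'⟩ : ∃ i' : Fin 3, i' ≠ i := exists_ne i
      have h1 := ord_sub_const P (t := t) (b := a (j i)) (b' := a (j i'))
        (fun h => hi' (hj (ha h)).symm) (by
          intro h
          have := (hzj i).2
          rw [← neg_ne_zero, neg_sub] at this
          exact this h) hcon
      have h2 := (hy i).2 P hP.1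
      have h3 := (hy i').2 P hP.1
      rw [hyi] at h2 h3
      rw [h1] at h3
      omega
    have hcardM : ((Finset.univ.biUnion M).card : ℤ) ≤ 3 * pht k z := by
      have h1 : (Finset.univ.biUnion M).card ≤ ∑ i, (M i).card := Finset.card_biUnion_le
      have h2 : ((∑ i, (M i).card : ℕ) : ℤ) ≤ ∑ _i : Fin 3, pht k z := by
        push_cast
        exact Finset.sum_le_sum fun i _ => hM2 i
      rw [Finset.sum_const, Finset.card_univ, Fintype.card_fin, nsmul_eq_mul] at h2
      have h3 : ((Finset.univ.biUnion M).card : ℤ) ≤ ((∑ i, (M i).card : ℕ) : ℤ) := by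
        exact_mod_cast h1
      exact h3.trans h2
    have hcard : ((S ∪ Finset.univ.biUnion M).card : ℤ) ≤ S.card + 3 * pht k z := by
      have h1 : ((S ∪ Finset.univ.biUnion M).card : ℤ) ≤ S.card +
          (Finset.univ.biUnion M).card := by
        exact_mod_cast Finset.card_union_le _ _
      linarith
    have hphz0 : 0 ≤ pht k z := pht_nonneg' (k := k) ⟨_, (hzj 0).1⟩
    have hmax : max (canDeg k L + (S ∪ Finset.univ.biUnion M).card) 0 ≤ χ + 3 * pht k z := by
      refine max_le ?_ (by positivity)
      have h1 : canDeg k L + S.card ≤ χ := by rw [hχ]; exact le_max_left _ _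
      linarith
    have ht' : hgt k t ≤ (8 * (1 + 3 * ((N + 1) * hco n)) : ℕ) * χ := by
      push_cast at hphz ⊢
      nlinarith
    refine hfin fun i j => ?_
    have hsubt : ∀ i, hgt k (algebraMap k L (a i) - t) ≤ hgt k t := by
      intro i
      rw [sub_eq_add_neg]
      refine (hgt_add_le _ _).trans ?_
      rw [hgt_const, zero_add, hgt_neg]
    have h3 : y i / y j = ((algebraMap k L (a i) - t) * (algebraMap k L (a j) - t)⁻¹) *
        (z i / z j) := by
      rw [hyz i, hyz j, ← div_eq_mul_inv, mul_div_mul_comm]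
    rw [h3]
    refine (hgt_mul_le _ _).trans ?_
    have h4 := hgt_mul_le (k := k) (algebraMap k L (a i) - t) (algebraMap k L (a j) - t)⁻¹
    rw [hgt_inv] at h4
    have h5 := hsubt i
    have h6 := hsubt j
    have h7 := hB i j
    have h8 : (hco n : ℤ) * max (canDeg k L) 0 ≤ hco n * χ :=
      mul_le_mul_of_nonneg_left hMS (by positivity)
    push_cast at ht' ⊢
    linarith

end Pool.Agent.Y190.AH
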