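import Pool.Agent.Y190.AH.Log
import Pool.Agent.Y190.QP.SpB
import Pool.Agent.W603.CX.WarAll

/-!
The degrees of curves and log general type.
-/

set_option autoImplicit false

set_option linter.unusedSectionVars false

open FF Pool.Agent.W603.LV Pool.Agent.W603.PV Pool.Agent.W602.GT Pool.Agent.Y190.BV
  Pool.Agent.Y190.GN Pool.Agent.TH145.MW Pool.Agent.Y190.QP

namespace Pool.Agent.Y190.AH

section defs

variable {k : Type} [Field k] {N : ℕ} {ι : Type}

/-- The vector `f` of elements of the function field `L` is the vector of homogeneous coordinates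
of a morphism to `X = {F = 0, x_j ≠ 0 for j in U}` from the smooth projective curve with function
field `L`, without the points in the finite set `S`. -/
def MapX (U : Set (Fin (N + 1))) (F : ι → MvPolynomial (Fin (N + 1)) k) {L : Type} [Field L]
    [Algebra k L] (S : Finset (Place k L)) (f : Fin (N + 1) → L) : Prop :=
  (∃ i, f i ≠ 0) ∧ (∀ e, val f (F e) = 0) ∧
    ∀ j ∈ U, f j ≠ 0 ∧ ∀ P ∉ S, P.ord (f j) = pord P f

/-- the forms that vanish at `y` -/
def van {K : Type} [Field K] [Algebra k K] (y : Fin (N + 1) → K) :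
    {G : MvPolynomial (Fin (N + 1)) k // IsForm G ∧ val y G = 0} →
      MvPolynomial (Fin (N + 1)) k := fun G => G.1

/-- The zero and the pole of the coordinate on the projective line. -/
noncomputable def zeroInf (k : Type) [Field k] [CharZero k] : Finset (Place k (RatFunc k)) :=
  (finite_support (k := k) (RatFunc.X : RatFunc k)).toFinset

/-- Outside of a proper closed subset, the degrees of the maps from affine curves to the closed
subvariety of `X` with the generic point `y` are at most `B` times the maximum of `0` and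
`2 g - 2 + |S|`. -/
def LinB (k : Type) [Field k] (U : Set (Fin (N + 1))) {K : Type} [Field K] [Algebra k K] (y : Fin (N + 1) → K) : Prop :=
  ∃ G : MvPolynomial (Fin (N + 1)) k, IsForm G ∧ val y G ≠ 0 ∧ ∃ B : ℕ,
    ∀ (L : Type) [Field L] [Algebra k L] [IsFF k L] (S : Finset (Place k L))
      (f : Fin (N + 1) → L), MapX U (van (k := k) y) S f → val f G ≠ 0 →
        pht k f ≤ B * max (canDeg k L + S.card) 0

/-- Outside of a proper closed subset, the degrees of the maps from affine curves to the closed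
subvariety of `X` with the generic point `y` are bounded by a function of `2 g - 2 + |S|`. -/
def EulB (k : Type) [Field k] (U : Set (Fin (N + 1))) {K : Type} [Field K] [Algebra k K] (y : Fin (N + 1) → K) : Prop :=
  ∃ G : MvPolynomial (Fin (N + 1)) k, IsForm G ∧ val y G ≠ 0 ∧ ∃ β : ℤ → ℤ,
    ∀ (L : Type) [Field L] [Algebra k L] [IsFF k L] (S : Finset (Place k L))
      (f : Fin (N + 1) → L), MapX U (van (k := k) y) S f → val f G ≠ 0 →
        pht k f ≤ β (canDeg k L + S.card)

/-- Outside of a proper closed subset, the degrees of the maps from each affine curve to the closed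
subvariety of `X` with the generic point `y` are bounded. -/
def EachB (k : Type) [Field k] (U : Set (Fin (N + 1))) {K : Type} [Field K] [Algebra k K] (y : Fin (N + 1) → K) :
    Prop :=
  ∃ G : MvPolynomial (Fin (N + 1)) k, IsForm G ∧ val y G ≠ 0 ∧
    ∀ (L : Type) [Field L] [Algebra k L] [IsFF k L] (S : Finset (Place k L)), ∃ B : ℤ,
      ∀ f : Fin (N + 1) → L, MapX U (van (k := k) y) S f → val f G ≠ 0 → pht k f ≤ B

/-- Outside of a proper closed subset, the degrees of the maps from the multiplicative group to the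
closed subvariety of `X` with the generic point `y` are bounded. -/
def GmB (k : Type) [Field k] [CharZero k] (U : Set (Fin (N + 1))) {K : Type} [Field K] [Algebra k K]
    (y : Fin (N + 1) → K) : Prop :=
  ∃ G : MvPolynomial (Fin (N + 1)) k, IsForm G ∧ val y G ≠ 0 ∧ ∃ B : ℤ,
    ∀ f : Fin (N + 1) → RatFunc k, MapX U (van (k := k) y) (zeroInf k) f → val f G ≠ 0 →
      pht k f ≤ B

end defs

section

variable {k : Type} [Field k] [IsAlgClosed k] [CharZero k] {N n m : ℕ} {ι : Type}

/-- **The degrees of the curves in closed subsets.** -/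
theorem bound_closed (hm : 2 ≤ m) (hnm : n < 2 * m) (hN : 4 * n < N + 1) {a : Fin (N + 1) → k}
    (ha : Function.Injective a) (U : Set (Fin (N + 1))) {F : ι → MvPolynomial (Fin (N + 1)) k}
    (hF : ∀ e, IsForm (F e)) (hV : ConeU U F ⊆ PowVal a n m) :
    ∃ B : ℕ, ∀ (L : Type) [Field L] [Algebra k L] [IsFF k L] (S : Finset (Place k L))
      (f : Fin (N + 1) → L), MapX U F S f → pht k f ≤ B * max (canDeg k L + S.card) 0 ∨
        (¬ 3 ≤ U.ncard ∧ ∀ G : MvPolynomial (Fin (N + 1)) k,
          (∀ p q, GmLine U F p q → ∀ c c' : k, c ≠ 0 → c' ≠ 0 → val (c • p + c' • q) G = 0) →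
            val f G = 0) := by
  have hn : n ≤ N := by omega
  have hsub : ConeU U F ⊆ Cone (buchi a n m) := by rw [cone_buchi ha hn]; exact hV
  obtain ⟨A, hA⟩ := proj_bound' (m := m) hm hnm hN ha hF
  rcases U_cases U with ⟨jj, hjj, hjU⟩ | ⟨j1, j2, hU⟩
  · refine ⟨_, fun L _ _ _ S f hf => Or.inl (log_bound (m := m) hm hnm hN ha ?_ hjj S
      fun i => hf.2.2 _ (hjU i))⟩
    obtain ⟨h1, h2, h3⟩ := hf
    exact sub_extU hsub (fun h => h1.elim fun i hi => hi (congrFun h i))
      (fun j hj => (h3 j hj).1) h2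
  · refine ⟨A, fun L _ _ _ S f hf => ?_⟩
    have hchL : CharZero L := charZero_of_injective_algebraMap (algebraMap k L).injective
    obtain ⟨h1, h2, h3⟩ := hf
    have hf0 : f ≠ 0 := fun h => h1.elim fun i hi => hi (congrFun h i)
    rcases hA L f hf0 (sub_extU hsub hf0 (fun j hj => (h3 j hj).1) h2) h2 with h | ⟨v, h4, h5⟩
    · refine Or.inl (h.trans (mul_le_mul_of_nonneg_left (max_le_max ?_ le_rfl)
        (by positivity)))
      linarith [Nat.cast_nonneg (α := ℤ) S.card]
    · refine Or.inr ⟨fun h3U => ?_, fun G hG => ?_⟩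
      · obtain ⟨jj, hjj, hjU⟩ := (three_iff U).1 h3U
        have h6 : ∀ i, jj i = j1 ∨ jj i = j2 := fun i => hU _ (hjU i)
        have h01 : jj 0 ≠ jj 1 := fun h => by simpa using hjj h
        have h02 : jj 0 ≠ jj 2 := fun h => by simpa using hjj h
        have h12 : jj 1 ≠ jj 2 := fun h => by simpa using hjj h
        rcases h6 0 with e0 | e0 <;> rcases h6 1 with e1 | e1 <;> rcases h6 2 with e2 | e2 <;>
          simp_all
      · exact vanish_gm hU f v (fun j hj => (h3 j hj).1) h4 h5 hG

theorem wedge_of_li {p q : Fin (N + 1) → k} (h : LinearIndependent k ![p, q]) :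
    ∃ i j, p i * q j ≠ p j * q i := by
  rw [LinearIndependent.pair_iff] at h
  by_contra hcon
  push Not at hcon
  by_cases hx : p = 0
  · have h1 := h 1 0 (by rw [hx]; simp)
    exact one_ne_zero h1.1
  · obtain ⟨i, hi⟩ := Function.ne_iff.1 hx
    have hxi : p i ≠ 0 := hi
    have h1 := h (q i) (- p i) (by
      funext j
      simp only [Pi.add_apply, Pi.smul_apply, smul_eq_mul, Pi.zero_apply]
      linear_combination -(hcon i j))
    exact hxi (neg_eq_zero.1 h1.2)

/-- maps of large degree from the multiplicative group -/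
theorem gm_maps {U : Set (Fin (N + 1))} {F : ι → MvPolynomial (Fin (N + 1)) k}
    {p q : Fin (N + 1) → k} (hL : GmLine U F p q) {G : MvPolynomial (Fin (N + 1)) k} {c c' : k}
    (hc : c ≠ 0) (hc' : c' ≠ 0) (hG : val (c • p + c' • q) G ≠ 0) (B : ℤ) :
    ∃ f : Fin (N + 1) → RatFunc k, MapX U F (zeroInf k) f ∧ val f G ≠ 0 ∧ B < pht k f := by
  classical
  have hinf : Infinite k := inferInstance
  obtain ⟨r, hr⟩ : ∃ r : ℕ, r = B.toNat + 1 := ⟨_, rfl⟩
  let P : Fin (N + 1) → Polynomial k := fun i =>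
    Polynomial.C (c * p i) + Polynomial.X ^ r * Polynomial.C (c' * q i)
  have hPe : ∀ t : k, (fun i => (P i).eval t) = c • p + (t ^ r * c') • q := by
    intro t
    funext i
    simp only [P, Polynomial.eval_add, Polynomial.eval_mul, Polynomial.eval_C,
      Polynomial.eval_pow, Polynomial.eval_X, Pi.add_apply, Pi.smul_apply, smul_eq_mul]
    ring
  have hinj : Function.Injective (algebraMap (Polynomial k) (RatFunc k)) :=
    RatFunc.algebraMap_injective k
  let f : Fin (N + 1) → RatFunc k := fun i => algebraMap (Polynomial k) (RatFunc k) (P i)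
  have hcone : ∀ t : k, t ≠ 0 → c • p + (t ^ r * c') • q ∈ ConeU U F := fun t ht =>
    hL.2 c _ hc (mul_ne_zero (pow_ne_zero _ ht) hc')
  have hP0 : ∀ i, (c • p + c' • q) i ≠ 0 → P i ≠ 0 := by
    intro i hi h0
    apply hi
    have h1 := congrFun (hPe 1) i
    rw [one_pow, one_mul] at h1
    rw [← h1, h0, Polynomial.eval_zero]
  have hf0 : ∀ i, (c • p + c' • q) i ≠ 0 → f i ≠ 0 := fun i hi h0 =>
    hP0 i hi (hinj (by rw [map_zero]; exact h0))
  have hX : Transcendental k (RatFunc.X : RatFunc k) := RatFunc.transcendental_X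
  have hXne : (RatFunc.X : RatFunc k) ≠ 0 := RatFunc.X_ne_zero
  have hcst : ∀ c : k, algebraMap (Polynomial k) (RatFunc k) (Polynomial.C c) =
      algebraMap k (RatFunc k) c := by
    intro c
    rw [IsScalarTower.algebraMap_apply k (Polynomial k) (RatFunc k)]
    rfl
  have hfe : ∀ i, f i = algebraMap k (RatFunc k) (c * p i) +
      RatFunc.X ^ r * algebraMap k (RatFunc k) (c' * q i) := by
    intro i
    simp only [f, P]
    rw [map_add, hcst, map_mul (algebraMap (Polynomial k) (RatFunc k)) (Polynomial.X ^ r), map_pow,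
      hcst, RatFunc.algebraMap_X]
  refine ⟨f, ⟨?_, ?_, ?_⟩, ?_, ?_⟩
  · have h1 := (hL.2 c c' hc hc').1
    obtain ⟨i, hi⟩ := Function.ne_iff.1 h1
    exact ⟨i, hf0 i hi⟩
  · intro e
    obtain ⟨Q, hQ1, hQ2⟩ := val_poly P (F e)
    have h0 : Q = 0 := poly_zero fun t ht => by
      rw [hQ1, hPe]
      exact (hcone t ht).2.2 e
    rw [← hQ2, h0, map_zero]
  · intro j hj
    have hcU : ∀ u v : k, u ≠ 0 → v ≠ 0 → u * p j + v * q j ≠ 0 := fun u v hu hv =>
      (hL.2 u v hu hv).2.1 j hj
    refine ⟨hf0 j (hcU c c' hc hc'), fun R hR => ?_⟩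
    have hRX : R.ord (RatFunc.X : RatFunc k) = 0 := by
      by_contra h
      apply hR
      unfold zeroInf
      rw [Set.Finite.mem_toFinset]
      exact h
    have hRXr : R.ord ((RatFunc.X : RatFunc k) ^ r) = 0 := by
      rw [R.ord_pow, hRX, mul_zero]
    have hfj : R.ord (f j) = 0 := by
      by_cases hp : p j = 0
      · have hq : q j ≠ 0 := by
          intro hq
          apply hcU 1 1 one_ne_zero one_ne_zero
          rw [hp, hq]
          ring
        have h1 : algebraMap k (RatFunc k) (c' * q j) ≠ 0 :=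
          (_root_.map_ne_zero _).2 (mul_ne_zero hc' hq)
        rw [hfe, hp, mul_zero, map_zero, zero_add, R.ord_mul (pow_ne_zero _ hXne) h1, hRXr,
          R.ord_const (mul_ne_zero hc' hq), add_zero]
      · have hq : q j = 0 := by
          by_contra hq
          apply hcU (q j) (-p j) hq (neg_ne_zero.2 hp)
          ring
        rw [hfe, hq, mul_zero, map_zero, mul_zero, add_zero, R.ord_const (mul_ne_zero hc hp)]
    have hne : ∃ i, f i ≠ 0 := ⟨j, hf0 j (hcU c c' hc hc')⟩
    obtain ⟨i, hi, hio⟩ := exists_pord R hne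
    have h1 : pord R f ≤ R.ord (f j) := pord_le R (hf0 j (hcU c c' hc hc'))
    have h2 : Ge R 0 (f i) := by
      rw [hfe]
      refine (Ge.const _).add ?_
      have h3 : Ge R 0 ((RatFunc.X : RatFunc k) ^ r) := Or.inr hRXr.ge
      have h4 := h3.mul (Ge.const (P := R) (c' * q i))
      rwa [add_zero] at h4
    have h3 := h2.resolve_left hi
    omega
  · obtain ⟨Q, hQ1, hQ2⟩ := val_poly P G
    rw [show val f G = algebraMap (Polynomial k) (RatFunc k) Q from hQ2.symm]
    intro h0
    apply hG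
    have h1 : Q = 0 := hinj (by rw [map_zero]; exact h0)
    have h2 := hQ1 1
    rw [hPe, one_pow, one_mul, h1, Polynomial.eval_zero] at h2
    exact h2.symm
  · obtain ⟨i, j, hij⟩ := wedge_of_li hL.1
    have h1 := Pool.Agent.W603.CX.hgt_le_line (k := k) (L := RatFunc k) (fun i => c * p i)
      (fun i => c' * q i) (j := j) (l := i) (by
        intro h
        apply hij
        have h2 : c * c' * (p i * q j) = c * c' * (p j * q i) := by linear_combination h
        exact mul_left_cancel₀ (mul_ne_zero hc hc') h2) (s := RatFunc.X ^ r)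
      (pow_ne_zero _ hXne)
    have h2 : (fun a => algebraMap k (RatFunc k) (c * p a) +
        RatFunc.X ^ r * algebraMap k (RatFunc k) (c' * q a)) = f := funext fun i => (hfe i).symm
    rw [h2, hgt_pow hXne] at h1
    have h3 : 0 < hgt k (RatFunc.X : RatFunc k) := by
      have h4 : 0 ≤ hgt k (RatFunc.X : RatFunc k) := hgt_nonneg _
      by_contra hcon
      have h5 : hgt k (RatFunc.X : RatFunc k) = 0 := by omega
      obtain ⟨c, hc⟩ := const_of_hgt h5.le
      apply hX
      rw [hc]
      exact isAlgebraic_algebraMap _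
    have h4 : (B : ℤ) < r := by rw [hr]; push_cast; omega
    nlinarith

/-- **Log general type and degrees of curves.** -/
theorem log_tfae {w : ℕ} (hm : 2 ≤ m) (hnm : n < 2 * m) (hN : 4 * n + (n + 1) ^ 2 < 2 * (N + 1))
    {a : Fin (N + 1) → k} (ha : Function.Injective a) (U : Set (Fin (N + 1))) {K : Type} [Field K]
    [Algebra k K] (hw : 1 ≤ w) {y : Fin (N + 1) → K} (hy0 : y ≠ 0) (hyU : ∀ j ∈ U, y j ≠ 0)
    (hgen : coords k y = ⊤) (hdim : Algebra.trdeg k K = w) {H : Polynomial K}
    (hH : H.natDegree ≤ n) (hy : ∀ i, y i ^ m = H.eval (algebraMap k K (a i))) :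
    [LogGeneralType k K w (OffU U y), LinB k U y, EulB k U y, EachB k U y, GmB k U y,
      3 ≤ U.ncard ∨ ¬ Ruled k K].TFAE := by
  have hn : n ≤ N := by nlinarith
  have hN4 : 4 * n < N + 1 := by nlinarith [sq_nonneg ((n : ℤ) - 1)]
  have hF : ∀ e, IsForm (van (k := k) y e) := fun e => e.2.1
  have hsub : ConeU U (van (k := k) y) ⊆ Cone (buchi a n m) := by
    rintro x ⟨hx0, -, hx⟩
    refine ⟨hx0, fun l => hx ⟨_, isForm_buchi a n m l, ?_⟩⟩
    exact mem_of_poly a n m y H hH (fun i => (hy i).symm) l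
  have hV : ConeU U (van (k := k) y) ⊆ PowVal a n m := by rw [← cone_buchi ha hn]; exact hsub
  have hsv : SubVarU U (van (k := k) y) K w y := ⟨hy0, hyU, fun e => e.2.2, hgen, hdim⟩
  have hgen' : ∀ G : MvPolynomial (Fin (N + 1)) k, IsForm G →
      (val y G = 0 ↔ ∀ x ∈ ConeU U (van (k := k) y), val x G = 0) := fun G hG =>
    ⟨fun h x hx => hx.2.2 ⟨G, hG, h⟩, fun h => val_of_cone hy0 hyU (fun e => e.2.2) h⟩
  have heq := lang_equivU hm hnm hN ha hF hsub hw hsv hgen'
  tfae_have 1 ↔ 6 := heq.out 0 3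
  tfae_have 1 → 2 := by
    intro h
    have h1 := (heq.out 0 2).1 h
    obtain ⟨x, hx, hxn⟩ : ∃ x ∈ ConeU U (van (k := k) y), x ∉ SpL U (van (k := k) y) := by
      by_contra hcon
      push Not at hcon
      exact h1 (Set.Subset.antisymm (fun x hx => hx.1) hcon)
    obtain ⟨G, hG, hall, hGx⟩ : ∃ G : MvPolynomial (Fin (N + 1)) k, IsForm G ∧
        (∀ p q, GmLine U (van (k := k) y) p q → ∀ c c' : k, c ≠ 0 → c' ≠ 0 →
          val (c • p + c' • q) G = 0) ∧ val x G ≠ 0 := by
      by_contra hcon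
      push Not at hcon
      exact hxn ⟨hx, fun G hG h => hcon G hG h⟩
    obtain ⟨B, hB⟩ := bound_closed hm hnm hN4 ha U hF hV
    refine ⟨G, hG, fun h0 => hGx ((hgen' G hG).1 h0 x hx), B, fun L _ _ _ S f hf hfG => ?_⟩
    rcases hB L S f hf with h2 | ⟨-, h2⟩
    · exact h2
    · exact absurd (h2 G hall) hfG
  tfae_have 2 → 3 := fun ⟨G, h1, h2, B, h⟩ => ⟨G, h1, h2, fun m => B * max m 0,
    fun L _ _ _ S f hf hG => h L S f hf hG⟩
  tfae_have 3 → 4 := fun ⟨G, h1, h2, β, h⟩ => ⟨G, h1, h2,
    fun L _ _ _ S => ⟨_, fun f hf hG => h L S f hf hG⟩⟩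
  tfae_have 4 → 5 := fun ⟨G, h1, h2, h⟩ => ⟨G, h1, h2, h (RatFunc k) (zeroInf k)⟩
  tfae_have 5 → 1 := by
    rintro ⟨G, hG, hGy, B, hB⟩
    by_contra hgt
    have hsp : SpL U (van (k := k) y) = ConeU U (van (k := k) y) := by
      by_contra hne
      exact hgt ((heq.out 0 2).2 hne)
    obtain ⟨x, hx, hxG⟩ : ∃ x ∈ ConeU U (van (k := k) y), val x G ≠ 0 := by
      by_contra hcon
      push Not at hcon
      exact hGy ((hgen' G hG).2 hcon)
    rw [← hsp] at hx
    obtain ⟨p, q, hpq, c, c', hc, hc', hne⟩ : ∃ p q, GmLine U (van (k := k) y) p q ∧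
        ∃ c c' : k, c ≠ 0 ∧ c' ≠ 0 ∧ val (c • p + c' • q) G ≠ 0 := by
      by_contra hcon
      push Not at hcon
      exact hxG (hx.2 G hG hcon)
    obtain ⟨f, hf, hfG, hlt⟩ := gm_maps hpq hc hc' hne B
    exact absurd (hB f hf hfG) (not_le.2 hlt)
  tfae_finish

end

end Pool.Agent.Y190.AH
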